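import Pool.Agent.R654.SharpCore
import Pool.Agent.R872.Sharp.Final

/-!
# `k`-sharp actions with large `k`-set stabilisers

Positive answer to Q1 of MP_f234cd_al: with `X` the set of the primes one has
`k! / τ'(k) ≥ k (k - 1) ≥ k² / 2`.  For a prime `p` there is a `p`-sharp action of a group on a
countably infinite set, transitive on the `p`-subsets, in which every setwise stabiliser of a
`p`-subset acts on it as the full affine group `AGL(1, p)`.
-/

namespace Pool.Agent.Results.MP_f234cd_al.QuadraticGrowth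

/-- The action of `G` on `ℕ` is `k`-sharp: only the identity fixes `k` distinct points. -/
def KSharp (k : ℕ) (G : Type) [Group G] [MulAction G ℕ] : Prop :=
  ∀ (g : G) (a : Fin k ↪ ℕ), g • a = a → g = 1

/-- `G` is transitive on the `k`-element subsets of `ℕ`. -/
def KHomog (k : ℕ) (G : Type) [Group G] [MulAction G ℕ] : Prop :=
  ∀ A B : Set ℕ, A.ncard = k → B.ncard = k → A.Finite → B.Finite → ∃ g : G, (fun x => g • x) '' A = B

/-- `τ'(k)`: the least number of orbits on ordered `k`-tuples of distinct points of a countably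
infinite set of a group acting `k`-sharply and transitively on the `k`-subsets. -/
noncomputable def tau' (k : ℕ) : ℕ :=
  sInf {n | ∃ (G : Type) (_ : Group G) (_ : MulAction G ℕ), KSharp k G ∧ KHomog k G ∧
    Nat.card (MulAction.orbitRel.Quotient G (Fin k ↪ ℕ)) = n}

theorem tau'_prime (p : ℕ) (hp : p.Prime) : 0 < tau' p ∧ tau' p * (p * (p - 1)) ≤ p.factorial := by
  have : Fact p.Prime := ⟨hp⟩
  obtain ⟨G, _, _, h1, h2, h3⟩ := Pool.Agent.R872.Sharp.main p
    (Pool.Agent.R654.SharpCore.core hp.pos (Pool.Agent.R872.Sharp.Sp p)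
      (Pool.Agent.R872.Sharp.good p))
  have hmem : Nat.card (MulAction.orbitRel.Quotient G (Fin p ↪ ℕ)) ∈
      {n | ∃ (G : Type) (_ : Group G) (_ : MulAction G ℕ), KSharp p G ∧ KHomog p G ∧
        Nat.card (MulAction.orbitRel.Quotient G (Fin p ↪ ℕ)) = n} :=
    ⟨G, inferInstance, inferInstance, h1, h2, rfl⟩
  constructor
  · obtain ⟨G', _, _, h1', h2', h3'⟩ := Nat.sInf_mem ⟨_, hmem⟩
    have := Pool.Agent.R872.Sharp.finite_orbits G' h2'
    unfold tau'
    rw [← h3']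
    exact this
  · have h4 : tau' p ≤ Nat.card (MulAction.orbitRel.Quotient G (Fin p ↪ ℕ)) := Nat.sInf_le hmem
    exact le_trans (Nat.mul_le_mul_right _ h4) h3

/-- Positive answer to Q1: the primes `k` satisfy `k! / τ'(k) ≥ (1/2) k ^ 2`. -/
theorem result : ∃ X : Set ℕ, X.Infinite ∧ ∃ c C : ℝ, 1 < c ∧ 0 < C ∧
    ∀ k ∈ X, C * (k : ℝ) ^ c ≤ (k.factorial : ℝ) / (tau' k : ℝ) := by
  refine ⟨{p | p.Prime}, Nat.infinite_setOfPred_prime, 2, 1 / 2, by norm_num, by norm_num, ?_⟩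
  intro p hp
  obtain ⟨h1, h2⟩ := tau'_prime p hp
  have h3 : (0 : ℝ) < tau' p := by exact_mod_cast h1
  rw [le_div_iff₀ h3]
  have h4 : ((tau' p * (p * (p - 1)) : ℕ) : ℝ) ≤ (p.factorial : ℝ) := by exact_mod_cast h2
  have hp2 : 2 ≤ p := Nat.Prime.two_le hp
  have hp1 : ((p - 1 : ℕ) : ℝ) = (p : ℝ) - 1 := by
    rw [Nat.cast_sub (by omega)]; norm_num
  have hp2' : (2 : ℝ) ≤ p := by exact_mod_cast hp2
  rw [Nat.cast_mul, Nat.cast_mul, hp1] at h4
  refine le_trans ?_ h4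
  have h5 : (1 / 2 : ℝ) * (p : ℝ) ^ (2 : ℝ) ≤ (p : ℝ) * ((p : ℝ) - 1) := by
    rw [Real.rpow_two]
    nlinarith
  calc (1 / 2 : ℝ) * (p : ℝ) ^ (2 : ℝ) * (tau' p : ℝ)
      ≤ ((p : ℝ) * ((p : ℝ) - 1)) * (tau' p : ℝ) := mul_le_mul_of_nonneg_right h5 h3.le
    _ = (tau' p : ℝ) * ((p : ℝ) * ((p : ℝ) - 1)) := by ring

end Pool.Agent.Results.MP_f234cd_al.QuadraticGrowth
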